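import Pool.Agent.Helper42.DB.Goals2

/-!
Packet CLASS (MP_48f005_an).
-/

set_option autoImplicit false

namespace Pool.Agent.Helper42.DB.PkCLASS

open Set Filter Topology

theorem thm (S : Sys) : G_CLASS S := by
  intro a w hS
  by_contra hcon
  push Not at hcon
  obtain ⟨⟨d1, p1, h1⟩, ⟨d2, p2, h2⟩, ⟨d3, p3, h3⟩, ⟨d4, p4, h4⟩, ⟨d5, p5, h5⟩, ⟨d6, p6, h6⟩,
    ⟨d7, p7, h7⟩, ⟨d8, p8, h8⟩, h9⟩ := hcon
  obtain ⟨δ, hδ, k1, k2, k3, k4, k5, k6, k7, k8⟩ : ∃ δ : ℝ, 0 < δ ∧ δ ≤ d1 ∧ δ ≤ d2 ∧ δ ≤ d3 ∧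
      δ ≤ d4 ∧ δ ≤ d5 ∧ δ ≤ d6 ∧ δ ≤ d7 ∧ δ ≤ d8 := by
    refine ⟨min d1 (min d2 (min d3 (min d4 (min d5 (min d6 (min d7 d8)))))), ?_, ?_, ?_, ?_, ?_,
      ?_, ?_, ?_, ?_⟩ <;> simp [*]
  have hb : ∀ z : ℕ → St S, Cyl (2 * a + 1) w z →
      (z a).u ∈ Icc (S.a (w a) + δ) (S.b (w a) - δ) ∧
      (z a).φ ∈ Icc (-(Real.pi / 2 - δ)) (Real.pi / 2 - δ) ∧
      (z (a + 1)).u ∈ Icc (S.a (w (a + 1)) + δ) (S.b (w (a + 1)) - δ) ∧
      (z (a + 1)).φ ∈ Icc (-(Real.pi / 2 - δ)) (Real.pi / 2 - δ) := by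
    intro z hz
    have e1 := h1 z hz
    have e2 := h2 z hz
    have e3 := h3 z hz
    have e4 := h4 z hz
    have e5 := h5 z hz
    have e6 := h6 z hz
    have e7 := h7 z hz
    have e8 := h8 z hz
    exact ⟨⟨by linarith, by linarith⟩, ⟨by linarith, by linarith⟩, ⟨by linarith, by linarith⟩,
      ⟨by linarith, by linarith⟩⟩
  have hseq : ∀ q : ℕ, ∃ (z : ℕ → St S) (l : S.ι) (v s : ℝ), Cyl (2 * a + 1) w z ∧ l ≠ w a ∧
      l ≠ w (a + 1) ∧ v ∈ Icc (S.a l) (S.b l) ∧ s ∈ Icc (0:ℝ) 1 ∧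
      dist (S.g (w a) (z a).u + s • (S.g (w (a + 1)) (z (a + 1)).u - S.g (w a) (z a).u))
        (S.g l v) < δ / (q + 1) := by
    intro q
    have hq : 0 < δ / ((q : ℝ) + 1) := by positivity
    have hq' : δ / ((q : ℝ) + 1) ≤ δ := by
      rw [div_le_iff₀ (by positivity)]
      nlinarith [Nat.cast_nonneg (α := ℝ) q]
    obtain ⟨z, hz, hN⟩ := hS _ hq
    have i1 : (z a).i = w a := hz.2 a (by omega)
    have i2 : (z (a + 1)).i = w (a + 1) := hz.2 (a + 1) (by omega)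
    obtain ⟨b1, b2, b3, b4⟩ := hb z hz
    unfold Near at hN
    rw [i1, i2] at hN
    rcases hN with h | h | h | h | h | h | ⟨l, hl1, hl2, p, hp, v, hv, hd⟩
    · linarith [b1.1]
    · linarith [b1.2]
    · linarith [b3.1]
    · linarith [b3.2]
    · have := abs_le.2 ⟨b2.1, b2.2⟩
      linarith
    · have := abs_le.2 ⟨b4.1, b4.2⟩
      linarith
    · rw [segment_eq_image'] at hp
      obtain ⟨s, hs, hps⟩ := hp
      refine ⟨z, l, v, s, hz, hl1, hl2, hv, hs, ?_⟩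
      simp only [St.pos, i1, i2] at hps
      rw [hps]
      exact hd
  choose z l v s hz hl1 hl2 hv hs hd using hseq
  obtain ⟨l0, hl0⟩ := Finite.exists_infinite_fiber l
  have hfr : ∃ᶠ q in atTop, l q = l0 := by
    rw [Nat.frequently_atTop_iff_infinite]
    exact Set.infinite_coe_iff.1 hl0
  obtain ⟨f, hf, hfl⟩ := Filter.extraction_of_frequently_atTop hfr
  -- compactness
  have hK : IsCompact ((Icc (S.a (w a) + δ) (S.b (w a) - δ)) ×ˢ
      ((Icc (-(Real.pi / 2 - δ)) (Real.pi / 2 - δ)) ×ˢ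
      ((Icc (S.a (w (a + 1)) + δ) (S.b (w (a + 1)) - δ)) ×ˢ
      ((Icc (-(Real.pi / 2 - δ)) (Real.pi / 2 - δ)) ×ˢ
      ((Icc (S.a l0) (S.b l0)) ×ˢ (Icc (0:ℝ) 1)))))) :=
    isCompact_Icc.prod (isCompact_Icc.prod (isCompact_Icc.prod (isCompact_Icc.prod
      (isCompact_Icc.prod isCompact_Icc))))
  obtain ⟨⟨u0, φ0, u1, φ1, v0, s0⟩, hmem, g, hg, hlim⟩ := hK.tendsto_subseq
    (x := fun q => ((z (f q) a).u, (z (f q) a).φ, (z (f q) (a + 1)).u, (z (f q) (a + 1)).φ,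
      v (f q), s (f q))) (fun q => by
      obtain ⟨b1, b2, b3, b4⟩ := hb _ (hz (f q))
      have hv' := hv (f q)
      rw [hfl q] at hv'
      exact ⟨b1, b2, b3, b4, hv', hs (f q)⟩)
  obtain ⟨m1, m2, m3, m4, m5, m6⟩ := hmem
  simp only at m1 m2 m3 m4 m5 m6
  have t1 : Tendsto (fun q => (z (f (g q)) a).u) atTop (𝓝 u0) :=
    (continuous_fst.tendsto _).comp hlim
  have hlim2 := (continuous_snd.tendsto _).comp hlim
  have t2 : Tendsto (fun q => (z (f (g q)) a).φ) atTop (𝓝 φ0) :=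
    (continuous_fst.tendsto _).comp hlim2
  have hlim3 := (continuous_snd.tendsto _).comp hlim2
  have t3 : Tendsto (fun q => (z (f (g q)) (a + 1)).u) atTop (𝓝 u1) :=
    (continuous_fst.tendsto _).comp hlim3
  have hlim4 := (continuous_snd.tendsto _).comp hlim3
  have t4 : Tendsto (fun q => (z (f (g q)) (a + 1)).φ) atTop (𝓝 φ1) :=
    (continuous_fst.tendsto _).comp hlim4
  have hlim5 := (continuous_snd.tendsto _).comp hlim4
  have t5 : Tendsto (fun q => v (f (g q))) atTop (𝓝 v0) :=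
    (continuous_fst.tendsto _).comp hlim5
  have t6 : Tendsto (fun q => s (f (g q))) atTop (𝓝 s0) :=
    (continuous_snd.tendsto _).comp hlim5
  have c1 : Tendsto (fun q => S.g (w a) (z (f (g q)) a).u) atTop (𝓝 (S.g (w a) u0)) :=
    ((S.crv (w a)).continuous.tendsto _).comp t1
  have c2 : Tendsto (fun q => S.g (w (a + 1)) (z (f (g q)) (a + 1)).u) atTop
      (𝓝 (S.g (w (a + 1)) u1)) :=
    ((S.crv (w (a + 1))).continuous.tendsto _).comp t3
  have c3 : Tendsto (fun q => S.g l0 (v (f (g q)))) atTop (𝓝 (S.g l0 v0)) :=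
    ((S.crv l0).continuous.tendsto _).comp t5
  have c4 := (c1.add (t6.smul (c2.sub c1))).dist c3
  have hzero : Tendsto (fun q : ℕ => δ / ((f (g q) : ℝ) + 1)) atTop (𝓝 0) := by
    have h0 : Tendsto (fun n : ℕ => δ / ((n : ℝ) + 1)) atTop (𝓝 0) := by
      have := tendsto_one_div_add_atTop_nhds_zero_nat (𝕜 := ℝ)
      have h := this.const_mul δ
      simpa [div_eq_mul_inv] using h
    exact h0.comp (hf.comp hg).tendsto_atTop
  have hle : dist (S.g (w a) u0 + s0 • (S.g (w (a + 1)) u1 - S.g (w a) u0)) (S.g l0 v0) ≤ 0 := by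
    refine le_of_tendsto_of_tendsto c4 hzero (Eventually.of_forall fun q => ?_)
    have := hd (f (g q))
    rw [hfl (g q)] at this
    exact this.le
  have heq : S.g (w a) u0 + s0 • (S.g (w (a + 1)) u1 - S.g (w a) u0) = S.g l0 v0 :=
    dist_le_zero.1 hle
  have n1 : w a ≠ l0 := by
    have := hl1 (f 0)
    rw [hfl 0] at this
    exact this.symm
  have n2 : w (a + 1) ≠ l0 := by
    have := hl2 (f 0)
    rw [hfl 0] at this
    exact this.symm
  refine h9 l0 n1 n2 v0 m5 ⟨fun q => z (f (g q)), u0, u1, φ0, φ1, fun q => hz _,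
    ⟨by linarith [m1.1], by linarith [m1.2]⟩, ⟨by linarith [m3.1], by linarith [m3.2]⟩,
    ?_, ?_, t1, t2, t3, t4, ?_⟩
  · have := abs_le.2 ⟨m2.1, m2.2⟩
    linarith
  · have := abs_le.2 ⟨m4.1, m4.2⟩
    linarith
  · rw [segment_eq_image']
    exact ⟨s0, m6, heq⟩

end Pool.Agent.Helper42.DB.PkCLASS
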