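import Pool.Agent.Helper42.DB.Goals2

/-!
Packet CMT (MP_48f005_an).
-/

set_option autoImplicit false

namespace Pool.Agent.Helper42.DB.PkCMT

open Set Filter Topology

lemma hasDerivAt_ee (u : ℝ) : HasDerivAt ee (tt u) u := by
  have h1 : HasDerivAt (fun θ : ℝ => (Real.cos θ, Real.sin θ)) (-Real.sin u, Real.cos u) u :=
    (Real.hasDerivAt_cos u).prodMk (Real.hasDerivAt_sin u)
  have h2 := (Complex.equivRealProdCLM.symm : ℝ × ℝ →L[ℝ] ℂ).hasFDerivAt.comp_hasDerivAt u h1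
  have e1 : (⇑(Complex.equivRealProdCLM.symm : ℝ × ℝ →L[ℝ] ℂ) ∘
      fun θ : ℝ => (Real.cos θ, Real.sin θ)) = ee := by
    funext θ
    apply Complex.ext <;> simp
  have e2 : (Complex.equivRealProdCLM.symm : ℝ × ℝ →L[ℝ] ℂ) (-Real.sin u, Real.cos u) = tt u := by
    apply Complex.ext <;> simp
  rw [e1, e2] at h2
  exact h2

/-- parallel curve -/
noncomputable def par (c : Crv) (r : ℝ) (hr : 0 < r) : Crv where
  G := fun u => c.G u + r • ee u
  R := fun u => c.R u + r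
  cont := c.cont.add continuous_const
  nonneg := fun u => add_nonneg (c.nonneg u) hr.le
  der := fun u => by
    have h := (c.der u).fun_add ((hasDerivAt_ee u).fun_const_smul r)
    refine h.congr_deriv ?_
    rw [add_smul]

variable {S : Sys}

/-- points in front of the arc are in the table -/
lemma front_in (hARC : G_ARC S) (l : S.ι) {η : ℝ} (hη : 0 < η) :
    ∃ r : ℝ, 0 < r ∧ ∀ u ∈ Icc (S.a l + η) (S.b l - η), ∀ s ∈ Ioo 0 r,
      S.g l u + s • ee u ∈ S.Y := by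
  have hK : IsCompact (Icc (S.a l + η) (S.b l - η)) := isCompact_Icc
  refine hK.induction_on (p := fun A => ∃ r : ℝ, 0 < r ∧ ∀ u ∈ A, u ∈ Icc (S.a l) (S.b l) →
    ∀ s ∈ Ioo 0 r, S.g l u + s • ee u ∈ S.Y) ?_ ?_ ?_ ?_ |>.imp fun r hr =>
      ⟨hr.1, fun u hu => hr.2 u hu ⟨by linarith [hu.1], by linarith [hu.2]⟩⟩
  · exact ⟨1, one_pos, fun u hu => absurd hu (notMem_empty u)⟩
  · rintro A B hAB ⟨r, h1, h2⟩
    exact ⟨r, h1, fun u hu => h2 u (hAB hu)⟩
  · rintro A B ⟨r, h1, h2⟩ ⟨r', h1', h2'⟩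
    refine ⟨min r r', lt_min h1 h1', fun u hu hu' s hs => ?_⟩
    rcases hu with hu | hu
    · exact h2 u hu hu' s ⟨hs.1, hs.2.trans_le (min_le_left _ _)⟩
    · exact h2' u hu hu' s ⟨hs.1, hs.2.trans_le (min_le_right _ _)⟩
  · intro u0 hu0
    obtain ⟨ε, hε, hf⟩ := S.front l u0 ⟨by linarith [hu0.1], by linarith [hu0.2]⟩
    refine ⟨{u | dist (S.g l u) (S.g l u0) < ε / 2}, mem_nhdsWithin_of_mem_nhds ?_, ε / 2,
      half_pos hε, fun u hu hu' s hs => ?_⟩
    · have hc : Continuous fun u => dist (S.g l u) (S.g l u0) :=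
        (S.crv l).continuous.dist continuous_const
      exact hc.continuousAt.eventually (Iio_mem_nhds (by simpa using half_pos hε))
    · have hball : S.g l u + s • ee u ∈ Metric.ball (S.g l u0) ε := by
        rw [Metric.mem_ball]
        have h1 : dist (S.g l u + s • ee u) (S.g l u) = s := by
          rw [dist_eq_norm, add_sub_cancel_left, norm_smul, norm_ee, mul_one, Real.norm_eq_abs,
            abs_of_pos hs.1]
        have h2 := dist_triangle (S.g l u + s • ee u) (S.g l u) (S.g l u0)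
        have h3 : dist (S.g l u) (S.g l u0) < ε / 2 := hu
        linarith [hs.2]
      rcases hf _ hball with h | ⟨v, hv, t, ht, hz⟩
      · exact h
      · exfalso
        obtain ⟨hκ, -, -, h4⟩ := hARC l
        have h5 := h4 u hu' (S.g l v) (subset_convexHull ℝ _ ⟨v, hv, rfl⟩)
        have h6 : dt (ee u) (S.g l u + s • ee u - S.g l u) = s := by
          rw [add_sub_cancel_left, dt_smul_right, dt_self, norm_ee]
          ring
        have h7 : dt (ee u) (S.g l v - t • ee v - S.g l u)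
            = -dt (ee u) (S.g l u - S.g l v) - t * Real.cos (v - u) := by
          rw [dt_sub_right, dt_sub_right, dt_smul_right, dt_ee_ee, dt_sub_right]
          ring
        have h8 : 0 ≤ Real.cos (v - u) := by
          have h9 := S.turn l
          refine Real.cos_nonneg_of_mem_Icc ⟨?_, ?_⟩
          · linarith [hv.1, hv.2, hu'.1, hu'.2, Real.pi_gt_three]
          · linarith [hv.1, hv.2, hu'.1, hu'.2, Real.pi_gt_three]
        rw [hz, h7] at h6
        have h9 : 0 ≤ S.κ * ‖S.g l u - S.g l v‖ ^ 2 := by positivity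
        have h10 := mul_nonneg ht h8
        linarith [hs.1]

lemma cos_zero_of {D : ℝ} (h1 : |D| < Real.pi) (h2 : Real.cos D = 1) : D = 0 := by
  obtain ⟨k, hk⟩ := (Real.cos_eq_one_iff D).1 h2
  rw [abs_lt] at h1
  have hp := Real.pi_pos
  have h3 : -1 < (k : ℝ) := by
    by_contra h
    push Not at h
    nlinarith
  have h4 : (k : ℝ) < 1 := by
    by_contra h
    push Not at h
    nlinarith
  have h5 : k = 0 := by
    have h6 : -1 < k := by exact_mod_cast h3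
    have h7 : k < 1 := by exact_mod_cast h4
    omega
  rw [← hk, h5]
  simp

lemma abs_lt_of_cos {D : ℝ} (h1 : |D| < 3 * (Real.pi / 2)) (h2 : 0 < Real.cos D) :
    |D| < Real.pi / 2 := by
  by_contra h
  push Not at h
  have h3 : Real.cos |D| ≤ 0 :=
    Real.cos_nonpos_of_pi_div_two_le_of_le h (by linarith)
  rw [Real.cos_abs] at h3
  linarith

/-- separating data for a pair of arcs -/
lemma sepdata (hLIFT : G_LIFT S) (l : S.ι) {η : ℝ} (hη : 0 < η) (j : S.ι) (hj : l ≠ j) :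
    ∃ ηj C kk rj : ℝ, 0 < rj ∧ Real.cos kk = -1 ∧
      (∀ u ∈ Icc (S.a l + η) (S.b l - η), ∀ r ∈ Ioo 0 rj,
        dt (ee ηj) (S.g l u + r • ee u) < C) ∧
      (∀ v ∈ Icc (S.a j + η) (S.b j - η), C < dt (ee ηj) (S.g j v)) ∧
      (∀ u ∈ Icc (S.a l) (S.b l), |u - ηj| < Real.pi) ∧
      (∀ v ∈ Icc (S.a j) (S.b j), |v - ηj - kk| < Real.pi) := by
  obtain ⟨ηj, c, kk, h1, h2, h3, h4, h5, -⟩ := hLIFT l j hj
  have hcont : Continuous fun v => dt (ee ηj) (S.g j v) :=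
    continuous_dt continuous_const (S.crv j).continuous
  obtain ⟨m, hm, hm'⟩ := (isCompact_Icc (a := S.a j + η) (b := S.b j - η)).exists_forall_le'
    hcont.continuousOn (a := c) fun v hv => h3 v ⟨by linarith [hv.1], by linarith [hv.2]⟩
  refine ⟨ηj, (c + m) / 2, kk, (m - c) / 2, by linarith, h1, ?_, ?_, h4, h5⟩
  · intro u hu r hr
    rw [dt_add_right, dt_smul_right, dt_ee_ee]
    have h6 := h2 u ⟨by linarith [hu.1], by linarith [hu.2]⟩
    have h7 : r * Real.cos (u - ηj) ≤ r :=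
      mul_le_of_le_one_right hr.1.le (Real.cos_le_one _)
    linarith [hr.2]
  · intro v hv
    have := hm' v hv
    linarith

/-- order-connectedness in the forward direction -/
lemma fwd (hINTF : G_INTF S) (hSTEPY : G_STEPY S) (l : S.ι) {η : ℝ} (hη : 0 < η)
    {r : ℝ} (hr : 0 < r) (hrρ : r ≤ S.ρ / 4)
    (hY : ∀ u ∈ Icc (S.a l + η) (S.b l - η), S.g l u + r • ee u ∈ S.Y)
    (hsep : ∀ j, l ≠ j → ∃ ηj C kk : ℝ, Real.cos kk = -1 ∧
      (∀ u ∈ Icc (S.a l + η) (S.b l - η), dt (ee ηj) (S.g l u + r • ee u) < C) ∧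
      (∀ v ∈ Icc (S.a j + η) (S.b j - η), C < dt (ee ηj) (S.g j v)) ∧
      (∀ u ∈ Icc (S.a l) (S.b l), |u - ηj| < Real.pi) ∧
      (∀ v ∈ Icc (S.a j) (S.b j), |v - ηj - kk| < Real.pi))
    {σ : ℝ} (hσ : σ = 1 ∨ σ = -1) (a : ℕ) (f : ℕ → S.ι) :
    {u : ℝ | u ∈ Icc (S.a l + η) (S.b l - η) ∧ ∃ z : ℕ → St S, Cyl a f z ∧
      Lnd (S.g l u + r • ee u) (u + σ * (Real.pi / 2)) (z 0) ∧
      ((z 0).i ≠ l ∧ (z 0).u ∈ Icc (S.a (z 0).i + η) (S.b (z 0).i - η))}.OrdConnected := by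
  constructor
  rintro u0 ⟨hu0, z0, hz0, hL0, hi0, hA0⟩ u1 ⟨hu1, z1, hz1, hL1, hi1, hA1⟩ u hu
  rcases (hu.1.trans hu.2).eq_or_lt with h01 | h01
  · have : u = u0 := le_antisymm (hu.2.trans h01.symm.le) hu.1
    rw [this]
    exact ⟨hu0, z0, hz0, hL0, hi0, hA0⟩
  have e0 : (z0 0).i = f 0 := hz0.2 0 (Nat.zero_le _)
  have e1 : (z1 0).i = f 0 := hz1.2 0 (Nat.zero_le _)
  rw [e0] at hi0 hA0
  rw [e1] at hA1
  obtain ⟨ηj, C, kk, hkk, s1, s2, s3, s4⟩ := hsep (f 0) (Ne.symm hi0)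
  have hsub : Icc u0 u1 ⊆ Icc (S.a l + η) (S.b l - η) := Icc_subset_Icc hu0.1 hu1.2
  have hsσ : |σ * (Real.pi / 2)| = Real.pi / 2 := by
    rcases hσ with h | h <;> rw [h]
    · rw [one_mul, abs_of_pos (by positivity)]
    · rw [neg_one_mul, abs_neg, abs_of_pos (by positivity)]
  have hsk : Real.sin kk = 0 := by
    have := Real.sin_sq_add_cos_sq kk
    rw [hkk] at this
    nlinarith
  -- angles at an end
  have ang : ∀ v ∈ Icc (S.a l + η) (S.b l - η), ∀ y : St S, y.i = f 0 →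
      y.u ∈ Icc (S.a (f 0) + η) (S.b (f 0) - η) →
      Lnd (S.g l v + r • ee v) (v + σ * (Real.pi / 2)) y →
      |v + σ * (Real.pi / 2) - ηj| < Real.pi / 2 ∧ y.bk = v + σ * (Real.pi / 2) + kk := by
    intro v hv y hyi hyu hL
    obtain ⟨hok, hee, t, ht, hpos, -⟩ := hL
    have h1 : dt (ee ηj) y.pos = dt (ee ηj) (S.g l v + r • ee v)
        + t * Real.cos (v + σ * (Real.pi / 2) - ηj) := by
      rw [hpos, dt_add_right, dt_smul_right, dt_ee_ee]
    have h2 : C < dt (ee ηj) y.pos := by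
      have := s2 y.u hyu
      rw [← hyi] at this
      exact this
    have h3 := s1 v hv
    have h4 : 0 < Real.cos (v + σ * (Real.pi / 2) - ηj) := by
      by_contra h
      push Not at h
      have := mul_nonpos_of_nonneg_of_nonpos ht.le h
      linarith
    have h5 := s3 v ⟨by linarith [hv.1], by linarith [hv.2]⟩
    have h6 : |v + σ * (Real.pi / 2) - ηj| < 3 * (Real.pi / 2) := by
      have h7 : v + σ * (Real.pi / 2) - ηj = (v - ηj) + σ * (Real.pi / 2) := by ring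
      rw [h7]
      have h8 := abs_add_le (v - ηj) (σ * (Real.pi / 2))
      rw [hsσ] at h8
      linarith
    have h7 := abs_lt_of_cos h6 h4
    refine ⟨h7, ?_⟩
    have h8 := s4 y.u ⟨by linarith [hyu.1], by linarith [hyu.2]⟩
    have h9 : |y.bk - ηj - kk| < 3 * (Real.pi / 2) := by
      have h10 : y.bk - ηj - kk = (y.u - ηj - kk) + (-y.φ) := by
        simp only [St.bk]
        ring
      rw [h10]
      have h11 := abs_add_le (y.u - ηj - kk) (-y.φ)
      rw [abs_neg] at h11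
      linarith [hok.2]
    have h10 : ∀ α : ℝ, Real.cos (y.bk - α - kk) = Real.cos (v + σ * (Real.pi / 2) - α) := by
      intro α
      rw [Real.cos_sub, hkk, hsk, ← dt_ee_ee, ← dt_ee_ee, hee, dt_neg_right]
      ring
    have h11 : |y.bk - ηj - kk| < Real.pi / 2 := abs_lt_of_cos h9 (by rw [h10]; exact h4)
    have h12 : y.bk - (v + σ * (Real.pi / 2)) - kk = 0 := by
      refine cos_zero_of ?_ ?_
      · have h13 : y.bk - (v + σ * (Real.pi / 2)) - kk
            = (y.bk - ηj - kk) - (v + σ * (Real.pi / 2) - ηj) := by ring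
        rw [h13]
        have h14 := abs_sub (y.bk - ηj - kk) (v + σ * (Real.pi / 2) - ηj)
        linarith
      · rw [h10, sub_self, Real.cos_zero]
    linarith
  obtain ⟨g1, g2⟩ := ang u0 hu0 (z0 0) e0 hA0 hL0
  obtain ⟨g3, g4⟩ := ang u1 hu1 (z1 0) e1 hA1 hL1
  obtain ⟨y, hyp, hyq, hyF, hyL, hyu, hyth⟩ := hSTEPY (par (S.crv l) r hr) u0 u1 (fun v => v)
    (fun v => v + σ * (Real.pi / 2)) (z0 0) (z1 0) ηj C kk h01
    ⟨continuousOn_id, (continuous_id.add continuous_const).continuousOn,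
      fun x _ y _ h => h, fun x _ y _ h => by simpa using h⟩
    (fun x _ y _ h => by simpa using h)
    (fun v _ => by rw [add_sub_cancel_left, hsσ])
    (fun v hv => hY v (hsub hv))
    ⟨S.g l u0, fun v hv => by
      have h1 := S.small l v ⟨by linarith [(hsub hv).1], by linarith [(hsub hv).2]⟩ u0
        ⟨by linarith [hu0.1], by linarith [hu0.2]⟩
      have h2 : dist (S.g l v + r • ee v) (S.g l v) = r := by
        rw [dist_eq_norm, add_sub_cancel_left, norm_smul, norm_ee, mul_one, Real.norm_eq_abs,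
          abs_of_pos hr]
      have h3 := dist_triangle (S.g l v + r • ee v) (S.g l v) (S.g l u0)
      show dist (S.g l v + r • ee v) (S.g l u0) ≤ S.ρ / 2
      have h4 : dist (S.g l v) (S.g l u0) ≤ S.ρ / 4 := h1
      linarith⟩
    g1 g3 hkk
    (fun v hv => s1 v (hsub hv))
    (fun v hv => by
      rw [e0]
      refine s2 v ?_
      have := uIcc_subset_Icc hA0 hA1 hv
      exact this)
    hL0 hL1 (e0.trans e1.symm) g2 g4
  have hDec : DecF u0 u1 y := ⟨hyu.antitoneOn, hyth.antitoneOn, fun v hv v' hv' h =>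
    Or.inl (hyu hv hv' h)⟩
  rw [e0] at hyF
  obtain ⟨Z, hZ, -, -⟩ := hINTF a f u0 u1 y z0 z1 h01 hyF (Or.inr hDec) hz0 hz1 hyp.symm
    hyq.symm
  obtain ⟨hZ1, hZ2⟩ := hZ u hu
  refine ⟨hsub hu, Z u, hZ1, ?_, ?_, ?_⟩
  · rw [hZ2]
    exact hyL u hu
  · rw [hZ2, hyF.arc u hu]
    exact hi0
  · rw [hZ2, hyF.arc u hu]
    have m0 : u0 ∈ Icc u0 u1 := left_mem_Icc.2 h01.le
    have m1 : u1 ∈ Icc u0 u1 := right_mem_Icc.2 h01.le
    have h1 := hyu.antitoneOn m0 hu hu.1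
    have h2 := hyu.antitoneOn hu m1 hu.2
    simp only [hyp] at h1
    simp only [hyq] at h2
    exact ⟨hA1.1.trans h2, h1.trans hA0.2⟩

lemma Lnd_congr {p : ℂ} {θ θ' : ℝ} (h : ee θ = ee θ') {y : St S} (hL : Lnd p θ y) :
    Lnd p θ' y := by
  obtain ⟨h1, h2, t, h3, h4, h5⟩ := hL
  rw [h] at h2 h4
  refine ⟨h1, h2, t, h3, h4, fun s hs => ?_⟩
  rw [← h]
  exact h5 s hs

theorem thm (S : Sys) : G_ARC S → G_LIFT S → G_INTF S → G_STEPY S → G_LINEPAIR S → G_CMT S := by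
  intro hARC hLIFT hINTF hSTEPY hLP l σ η hσ hη
  obtain ⟨rY, hrY, hY⟩ := front_in hARC l hη
  have hex : ∀ j : S.ι, ∃ rj : ℝ, 0 < rj ∧ (l ≠ j → ∀ r ∈ Ioo 0 rj,
      ∃ ηj C kk : ℝ, Real.cos kk = -1 ∧
      (∀ u ∈ Icc (S.a l + η) (S.b l - η), dt (ee ηj) (S.g l u + r • ee u) < C) ∧
      (∀ v ∈ Icc (S.a j + η) (S.b j - η), C < dt (ee ηj) (S.g j v)) ∧
      (∀ u ∈ Icc (S.a l) (S.b l), |u - ηj| < Real.pi) ∧
      (∀ v ∈ Icc (S.a j) (S.b j), |v - ηj - kk| < Real.pi)) := by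
    intro j
    by_cases hj : l = j
    · exact ⟨1, one_pos, fun h => absurd hj h⟩
    · obtain ⟨ηj, C, kk, rj, h1, h2, h3, h4, h5, h6⟩ := sepdata hLIFT l hη j hj
      exact ⟨rj, h1, fun _ r hr => ⟨ηj, C, kk, h2, fun u hu => h3 u hu r hr, h4, h5, h6⟩⟩
  choose rr hrr hrr' using hex
  obtain ⟨j0, -, hmin⟩ := Finset.exists_min_image Finset.univ rr ⟨l, Finset.mem_univ l⟩
  refine ⟨min (rr j0) (min rY (S.ρ / 4)),
    lt_min (hrr j0) (lt_min hrY (by linarith [S.ρ_pos])), fun r hr a => ?_⟩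
  have hr0 := hr.1
  have hr1 : r < rr j0 := hr.2.trans_le (min_le_left _ _)
  have hr2 : r < rY := hr.2.trans_le ((min_le_right _ _).trans (min_le_left _ _))
  have hr3 : r < S.ρ / 4 := hr.2.trans_le ((min_le_right _ _).trans (min_le_right _ _))
  have hF : ∀ τ : ℝ, (τ = 1 ∨ τ = -1) → ∀ f : ℕ → S.ι,
      {u : ℝ | u ∈ Icc (S.a l + η) (S.b l - η) ∧ ∃ z : ℕ → St S, Cyl a f z ∧
        Lnd (S.g l u + r • ee u) (u + τ * (Real.pi / 2)) (z 0) ∧
        ((z 0).i ≠ l ∧ (z 0).u ∈ Icc (S.a (z 0).i + η) (S.b (z 0).i - η))}.OrdConnected :=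
    fun τ hτ f => fwd hINTF hSTEPY l hη hr0 hr3.le (fun u hu => hY u hu r ⟨hr0, hr2⟩)
      (fun j hj => hrr' j hj r ⟨hr0, hr1.trans_le (hmin j (Finset.mem_univ j))⟩) hτ a f
  have hτ : -σ = 1 ∨ -σ = -1 := by
    rcases hσ with h | h
    · right
      rw [h]
    · left
      rw [h, neg_neg]
  have hee : ∀ u : ℝ, ee (u + σ * (Real.pi / 2) + Real.pi) = ee (u + -σ * (Real.pi / 2)) := by
    intro u
    rcases hσ with h | h
    · rw [ee_eq_ee_iff, h]
      have : u + 1 * (Real.pi / 2) + Real.pi - (u + -1 * (Real.pi / 2)) = 2 * Real.pi := by ring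
      rw [this, Real.cos_two_pi]
    · rw [h]
      congr 1
      ring
  have key := hLP a (fun u => S.g l u + r • ee u) (fun u => u + σ * (Real.pi / 2))
    (Icc (S.a l + η) (S.b l - η))
    (fun y => y.i ≠ l ∧ y.u ∈ Icc (S.a y.i + η) (S.b y.i - η))
    (fun y => y.i ≠ l ∧ y.u ∈ Icc (S.a y.i + η) (S.b y.i - η))
    (fun f => hF σ hσ f)
    (fun f => by
      have h1 := hF (-σ) hτ f
      have h2 : {u : ℝ | u ∈ Icc (S.a l + η) (S.b l - η) ∧ ∃ z : ℕ → St S, Cyl a f z ∧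
          Lnd (S.g l u + r • ee u) (u + σ * (Real.pi / 2) + Real.pi) (z 0) ∧
          ((z 0).i ≠ l ∧ (z 0).u ∈ Icc (S.a (z 0).i + η) (S.b (z 0).i - η))}
          = {u : ℝ | u ∈ Icc (S.a l + η) (S.b l - η) ∧ ∃ z : ℕ → St S, Cyl a f z ∧
          Lnd (S.g l u + r • ee u) (u + -σ * (Real.pi / 2)) (z 0) ∧
          ((z 0).i ≠ l ∧ (z 0).u ∈ Icc (S.a (z 0).i + η) (S.b (z 0).i - η))} := by
        ext u
        constructor
        · rintro ⟨g1, z, g2, g3, g4⟩
          exact ⟨g1, z, g2, Lnd_congr (hee u) g3, g4⟩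
        · rintro ⟨g1, z, g2, g3, g4⟩
          exact ⟨g1, z, g2, Lnd_congr (hee u).symm g3, g4⟩
      rw [h2]
      exact h1)
  refine le_trans ?_ key
  unfold cnt
  refine Set.ncard_le_ncard (image_mono ?_) (Set.toFinite _)
  rintro w ⟨hw1, hw2, z, hz, u, hu, g1, g2, g3, g4⟩
  have i1 : (z a).i = w a := hz.2 a (by omega)
  have i2 : (z (a + 1)).i = w (a + 1) := hz.2 (a + 1) (by omega)
  refine ⟨u, hu, z, hz, g1, g2, ⟨?_, g4⟩, ?_, ?_⟩
  · rw [i2]
    exact hw2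
  · rw [St.rev_i, i1]
    exact hw1
  · rw [St.rev_i, St.rev_u]
    exact g3

end Pool.Agent.Helper42.DB.PkCMT
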