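import Pool.Agent.Helper42.DB.Goals2

/-!
Packet TYP (MP_48f005_an).
-/

set_option autoImplicit false

namespace Pool.Agent.Helper42.DB.PkTYP

open Set Filter Topology

lemma small_eventually (K c : ℝ) (hc : 0 < c) :
    ∃ N0 : ℕ, ∀ N ≥ N0, ((N : ℝ) + 1) * (K * Real.exp (-(c * N))) ≤ 1 / 2 := by
  have hr : |Real.exp (-c)| < 1 := by
    rw [abs_of_pos (Real.exp_pos _)]
    exact Real.exp_lt_one_iff.2 (by linarith)
  have h1 := (tendsto_pow_const_mul_const_pow_of_abs_lt_one 1 hr).const_mul K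
  have h2 := (tendsto_pow_atTop_nhds_zero_of_abs_lt_one hr).const_mul K
  have h3 := h1.add h2
  rw [mul_zero, add_zero] at h3
  have h4 := h3.eventually (Iic_mem_nhds (show (0:ℝ) < 1 / 2 by norm_num))
  obtain ⟨N0, hN0⟩ := eventually_atTop.1 h4
  refine ⟨N0, fun N hN => ?_⟩
  have h5 := hN0 N hN
  simp only [pow_one] at h5
  have h6 : Real.exp (-(c * N)) = Real.exp (-c) ^ N := by
    rw [← Real.exp_nat_mul]
    congr 1
    ring
  rw [h6]
  linarith

theorem thm : G_CUP → G_DB → G_VIT → G_TYP := by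
  intro hCUP hDB hVIT α _ L Sg h C hh hR hloc hcnt
  obtain ⟨τ, K, hK⟩ := hDB α L Sg h C hh.le hR hloc hcnt (h / 1000) (by positivity)
  have hc : 0 < h * (1 / 240 - 1 / 500) := by
    apply mul_pos hh
    norm_num
  obtain ⟨N0, hN0⟩ := small_eventually (max K 0) _ hc
  refine ⟨τ, N0, fun N hN => ?_⟩
  -- bad words
  let Bad : (ℕ → α) → Prop := fun W => L.P N W ∧ ¬ 10 * badc Sg τ N W ≤ N
  let Good' : (ℕ → α) → Prop := fun W => L.P N W ∧ 10 * badc Sg τ N W ≤ N
  have h1 : cnt N Bad ≤ ∑ M ∈ (Finset.range (N + 1)).filter (fun M => N < 60 * M),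
      cnt N (Win L.P Sg τ N M) := by
    refine hCUP α ℕ N _ (fun M => Win L.P Sg τ N M) Bad ?_
    rintro W ⟨hP, hb⟩
    obtain ⟨M, hM1, hM2, hM3⟩ := hVIT α L Sg τ N W hloc hP
    refine ⟨M, ?_, hM3⟩
    rw [Finset.mem_filter, Finset.mem_range]
    omega
  have h2 : (cnt N Bad : ℝ) ≤ ((N : ℝ) + 1) *
      (max K 0 * Real.exp ((h - h * (1 / 240 - 1 / 500)) * N)) := by
    have h3 : (cnt N Bad : ℝ) ≤ ∑ M ∈ (Finset.range (N + 1)).filter (fun M => N < 60 * M),
        (cnt N (Win L.P Sg τ N M) : ℝ) := by exact_mod_cast h1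
    have h4 : ∀ M ∈ (Finset.range (N + 1)).filter (fun M => N < 60 * M),
        (cnt N (Win L.P Sg τ N M) : ℝ) ≤
          max K 0 * Real.exp ((h - h * (1 / 240 - 1 / 500)) * N) := by
      intro M hM
      rw [Finset.mem_filter] at hM
      have hM' : (N : ℝ) < 60 * M := by exact_mod_cast hM.2
      refine (hK N M).trans ?_
      have h5 : (h + 2 * (h / 1000)) * N - h / 4 * M ≤ (h - h * (1 / 240 - 1 / 500)) * N := by
        nlinarith
      calc K * Real.exp ((h + 2 * (h / 1000)) * N - h / 4 * M)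
          ≤ max K 0 * Real.exp ((h + 2 * (h / 1000)) * N - h / 4 * M) :=
            mul_le_mul_of_nonneg_right (le_max_left _ _) (Real.exp_pos _).le
        _ ≤ max K 0 * Real.exp ((h - h * (1 / 240 - 1 / 500)) * N) :=
            mul_le_mul_of_nonneg_left (Real.exp_le_exp.2 h5) (le_max_right _ _)
    have h6 := Finset.sum_le_card_nsmul _ _ _ h4
    refine h3.trans (h6.trans ?_)
    rw [nsmul_eq_mul]
    refine mul_le_mul_of_nonneg_right ?_ (mul_nonneg (le_max_right _ _) (Real.exp_pos _).le)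
    have h7 : ((Finset.range (N + 1)).filter (fun M => N < 60 * M)).card ≤ N + 1 := by
      refine (Finset.card_filter_le _ _).trans ?_
      rw [Finset.card_range]
    exact_mod_cast h7
  have h3 : (cnt N Bad : ℝ) ≤ 1 / 2 * Real.exp (h * N) := by
    have h4 := hN0 N hN
    have h5 : Real.exp ((h - h * (1 / 240 - 1 / 500)) * N)
        = Real.exp (-(h * (1 / 240 - 1 / 500) * N)) * Real.exp (h * N) := by
      rw [← Real.exp_add]
      congr 1
      ring
    rw [h5] at h2
    have h6 := mul_le_mul_of_nonneg_right h4 (Real.exp_pos (h * N)).le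
    calc (cnt N Bad : ℝ) ≤ _ := h2
      _ = ((N : ℝ) + 1) * (max K 0 * Real.exp (-(h * (1 / 240 - 1 / 500) * N)))
          * Real.exp (h * N) := by ring
      _ ≤ _ := h6
  have h4 : L.A N ≤ ∑ b ∈ (Finset.univ : Finset Bool), cnt N (if b then Good' else Bad) := by
    refine hCUP α Bool N Finset.univ (fun b => if b then Good' else Bad) (L.P N) ?_
    intro W hW
    by_cases hb : 10 * badc Sg τ N W ≤ N
    · exact ⟨true, Finset.mem_univ _, by simpa [Good'] using ⟨hW, hb⟩⟩
    · exact ⟨false, Finset.mem_univ _, by simpa [Bad] using ⟨hW, not_le.1 hb⟩⟩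
  rw [Fintype.sum_bool] at h4
  simp only [if_true, Bool.false_eq_true, if_false] at h4
  have h5 : (L.A N : ℝ) ≤ cnt N Good' + cnt N Bad := by exact_mod_cast h4
  have h6 := hR.1 N
  have h7 : (L.A N : ℝ) ≤ 2 * cnt N Good' := by linarith
  exact_mod_cast h7

end Pool.Agent.Helper42.DB.PkTYP
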